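import Pool.Agent.Helper43.GR.TWOa

/-! The two point bound. -/

open Finset MeasureTheory Filter Topology Matrix
open scoped ENNReal ContDiff

namespace Pool.Agent.Helper43.GR

open Pool.Agent.Helper44.GF Pool.Agent.Helper44.GN Pool.Agent.Helper44.GH

variable {n m : ℕ}

/-- The box. -/
def Kb (n : ℕ) (a b : ℝ) : Set (Fin n → ℝ) := Set.pi Set.univ fun _ : Fin n => Set.Icc a b

theorem Kb_compact (n : ℕ) (a b : ℝ) : IsCompact (Kb n a b) :=
  isCompact_univ_pi fun _ => isCompact_Icc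

theorem Kb_sub {n : ℕ} {a b : ℝ} (ha : 0 < a) : Kb n a b ⊆ Og n := by
  intro y hy i
  exact lt_of_lt_of_le ha (hy i (Set.mem_univ _)).1

theorem restrict_Kb {n : ℕ} {P : Measure (Fin n → ℝ)} {a b : ℝ}
    (hb : ∀ᵐ y ∂P, ∀ i, a ≤ y i ∧ y i ≤ b) : P.restrict (Kb n a b) = P := by
  apply Measure.restrict_eq_self_of_ae_mem
  filter_upwards [hb] with y hy
  intro i _
  exact hy i

theorem int_one {n : ℕ} {P : Measure (Fin n → ℝ)} [IsProbabilityMeasure P] {a b : ℝ} (ha : 0 < a)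
    (hb : ∀ᵐ y ∂P, ∀ i, a ≤ y i ∧ y i ≤ b) {F : (Fin n → ℝ) → ℝ} (hF : ContinuousOn F (Og n)) :
    Integrable F P := by
  have h1 : IntegrableOn F (Kb n a b) P := (hF.mono (Kb_sub ha)).integrableOn_compact (Kb_compact n a b)
  unfold IntegrableOn at h1
  rwa [restrict_Kb hb] at h1

theorem int_two {n : ℕ} {P : Measure (Fin n → ℝ)} [IsProbabilityMeasure P] {a b : ℝ} (ha : 0 < a)
    (hb : ∀ᵐ y ∂P, ∀ i, a ≤ y i ∧ y i ≤ b) {F : (Fin n → ℝ) × (Fin n → ℝ) → ℝ}
    (hF : ContinuousOn F (Og n ×ˢ Og n)) : Integrable F (P.prod P) := by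
  have h1 : IntegrableOn F (Kb n a b ×ˢ Kb n a b) (P.prod P) :=
    (hF.mono (Set.prod_mono (Kb_sub ha) (Kb_sub ha))).integrableOn_compact
      ((Kb_compact n a b).prod (Kb_compact n a b))
  unfold IntegrableOn at h1
  rwa [← Measure.prod_restrict, restrict_Kb hb] at h1

theorem ae_two {n : ℕ} {P : Measure (Fin n → ℝ)} [IsProbabilityMeasure P] {a b : ℝ} (ha : 0 < a)
    (hb : ∀ᵐ y ∂P, ∀ i, a ≤ y i ∧ y i ≤ b) :
    ∀ᵐ p ∂(P.prod P), p.1 ∈ Og n ∧ p.2 ∈ Og n := by
  have h : ∀ᵐ y ∂P, y ∈ Og n := by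
    filter_upwards [hb] with y hy
    intro i
    exact lt_of_lt_of_le ha (hy i).1
  have h1 : ∀ᵐ p ∂(P.prod P), p.1 ∈ Og n := Measure.quasiMeasurePreserving_fst.ae h
  have h2 : ∀ᵐ p ∂(P.prod P), p.2 ∈ Og n := Measure.quasiMeasurePreserving_snd.ae h
  filter_upwards [h1, h2] with p q r using ⟨q, r⟩

/-- The Cauchy-Schwarz inequality. -/
theorem cs_int {X : Type*} [MeasurableSpace X] (μ : Measure X) (f g : X → ℝ)
    (hf : Integrable (fun x => f x ^ 2) μ) (hg : Integrable (fun x => g x ^ 2) μ)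
    (hfg : Integrable (fun x => f x * g x) μ) :
    (∫ x, f x * g x ∂μ) ^ 2 ≤ (∫ x, f x ^ 2 ∂μ) * ∫ x, g x ^ 2 ∂μ := by
  have h : ∀ t : ℝ, 0 ≤ (∫ x, f x ^ 2 ∂μ) * (t * t) + (-2 * ∫ x, f x * g x ∂μ) * t
      + ∫ x, g x ^ 2 ∂μ := by
    intro t
    have h1 : 0 ≤ ∫ x, (t * f x - g x) ^ 2 ∂μ := integral_nonneg fun x => sq_nonneg _
    have h2 : ∫ x, (t * f x - g x) ^ 2 ∂μ
        = ∫ x, (t * t * f x ^ 2 + (-2 * t * (f x * g x) + g x ^ 2)) ∂μ := by
      congr 1
      funext x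
      ring
    have h4 : Integrable (fun x => -2 * t * (f x * g x)) μ := hfg.const_mul _
    have h5 : Integrable (fun x => -2 * t * (f x * g x) + g x ^ 2) μ := h4.add hg
    have h6 : Integrable (fun x => t * t * f x ^ 2) μ := hf.const_mul _
    rw [h2, integral_add h6 h5, integral_add h4 hg, integral_const_mul, integral_const_mul] at h1
    linarith
  have h3 := discrim_le_zero h
  unfold discrim at h3
  nlinarith

theorem cn_AL (hC : ST_CNT) {V Z : Matrix (Fin n) (Fin m) ℝ} (hV : Function.Injective V.mulVec)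
    (k l : Fin n) : ContinuousOn (fun y => AL V Z y k l) (Og n) := by
  have hBe : ∀ i j, ContinuousOn (fun y => BB V Z y i j) (Og n) := (hC n m V Z hV).2.2.2.1
  have hTe : ∀ i j, ContinuousOn (fun y => (TT V V y)⁻¹ i j) (Og n) := (hC n m V Z hV).2.2.1
  have e : (fun y => AL V Z y k l) = fun y => ∑ a, (∑ c, (Z k c - ∑ d, V k d * BB V Z y d c)
      * (TT V V y)⁻¹ c a) * V l a := by
    funext y
    simp only [AL, RR, Matrix.mul_apply, Matrix.sub_apply, Matrix.transpose_apply]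
  rw [e]
  refine continuousOn_finset_sum _ fun a _ => ContinuousOn.mul (continuousOn_finset_sum _
    fun c _ => ContinuousOn.mul (continuousOn_const.sub (continuousOn_finset_sum _ fun d _ =>
      continuousOn_const.mul (hBe d c))) (hTe c a)) continuousOn_const

/-- The two point bound. -/
def ST_TWO : Prop :=
  ∀ (n m : ℕ) (P : Measure (Fin n → ℝ)) (a b J : ℝ) (V Z : Matrix (Fin n) (Fin m) ℝ),
    IsProbabilityMeasure P → 0 < a → (∀ᵐ y ∂P, ∀ i, a ≤ y i ∧ y i ≤ b) →
    Function.Injective V.mulVec → 0 ≤ J →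
    (∀ i, V i ≠ 0 → ∫ y, ∫ y', (y i / y' i + y' i / y i - 2) ^ 2 ∂P ∂P ≤ J) →
    (∀ i j, ∫ y, BB V Z y i j ∂P = 0) →
    ∫ y, Matrix.trace (BB V Z y * BB V Z y) ∂P ≤ √J / 2 * ∫ y, sgm V Z y ∂P

theorem st_TWO (hC : ST_CNT) : ST_TWO := by
  intro n m P a b J V Z hP ha hb hV hJ hJi hB
  have := hP
  have hO := ae_two ha hb
  have hq : ∀ y ∈ Og n, 0 < qf V y := (hC n m V Z hV).1
  have hOm : MeasurableSet (Og n ×ˢ Og n : Set ((Fin n → ℝ) × (Fin n → ℝ))) := by
    have h0 : MeasurableSet (Og n) := by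
      have : Og n = Set.pi Set.univ fun _ => Set.Ioi (0 : ℝ) := by
        ext y
        simp [Og]
      rw [this]
      exact MeasurableSet.univ_pi fun _ => measurableSet_Ioi
    exact h0.prod h0
  -- continuity on the product
  have cf1 : ∀ {F : (Fin n → ℝ) → ℝ}, ContinuousOn F (Og n) →
      ContinuousOn (fun p : (Fin n → ℝ) × (Fin n → ℝ) => F p.1) (Og n ×ˢ Og n) := by
    intro F hF
    exact hF.comp continuous_fst.continuousOn fun p hp => hp.1
  have cf2 : ∀ {F : (Fin n → ℝ) → ℝ}, ContinuousOn F (Og n) →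
      ContinuousOn (fun p : (Fin n → ℝ) × (Fin n → ℝ) => F p.2) (Og n ×ˢ Og n) := by
    intro F hF
    exact hF.comp continuous_snd.continuousOn fun p hp => hp.2
  have cy : ∀ k : Fin n, ContinuousOn (fun y : Fin n → ℝ => y k) (Og n) := fun k =>
    (continuous_apply k).continuousOn
  have cA : ∀ k l, ContinuousOn (fun y => AL V Z y k l) (Og n) := cn_AL hC hV
  have cBe : ∀ i j, ContinuousOn (fun y => BB V Z y i j) (Og n) := (hC n m V Z hV).2.2.2.1
  have iB : ∀ i j, Integrable (fun y => BB V Z y i j) P := fun i j => int_one ha hb (cBe i j)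
  have iBB : ∀ i j k l, Integrable (fun y => BB V Z y i j * BB V Z y k l) P := fun i j k l =>
    int_one ha hb ((cBe i j).mul (cBe k l))
  -- the left hand side
  have hL : ∫ p, Matrix.trace ((BB V Z p.1 - BB V Z p.2) * (BB V Z p.1 - BB V Z p.2)) ∂(P.prod P)
      = 2 * ∫ y, Matrix.trace (BB V Z y * BB V Z y) ∂P := by
    have e0 : ∀ p : (Fin n → ℝ) × (Fin n → ℝ),
        Matrix.trace ((BB V Z p.1 - BB V Z p.2) * (BB V Z p.1 - BB V Z p.2))
        = ∑ i, ∑ j, ((BB V Z p.1 i j * BB V Z p.1 j i - BB V Z p.1 i j * BB V Z p.2 j i)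
          + (BB V Z p.2 i j * BB V Z p.2 j i - BB V Z p.2 i j * BB V Z p.1 j i)) := by
      intro p
      simp only [Matrix.trace, Matrix.diag_apply, Matrix.mul_apply, Matrix.sub_apply]
      refine Finset.sum_congr rfl fun i _ => Finset.sum_congr rfl fun j _ => ?_
      ring
    have i1 : ∀ i j, Integrable (fun p : (Fin n → ℝ) × (Fin n → ℝ) =>
        BB V Z p.1 i j * BB V Z p.1 j i) (P.prod P) := fun i j =>
      int_two ha hb (cf1 ((cBe i j).mul (cBe j i)))
    have i2 : ∀ i j, Integrable (fun p : (Fin n → ℝ) × (Fin n → ℝ) =>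
        BB V Z p.1 i j * BB V Z p.2 j i) (P.prod P) := fun i j =>
      int_two ha hb ((cf1 (cBe i j)).mul (cf2 (cBe j i)))
    have i3 : ∀ i j, Integrable (fun p : (Fin n → ℝ) × (Fin n → ℝ) =>
        BB V Z p.2 i j * BB V Z p.2 j i) (P.prod P) := fun i j =>
      int_two ha hb (cf2 ((cBe i j).mul (cBe j i)))
    have i4 : ∀ i j, Integrable (fun p : (Fin n → ℝ) × (Fin n → ℝ) =>
        BB V Z p.2 i j * BB V Z p.1 j i) (P.prod P) := fun i j =>
      int_two ha hb ((cf2 (cBe i j)).mul (cf1 (cBe j i)))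
    have i5 : ∀ i j, Integrable (fun p : (Fin n → ℝ) × (Fin n → ℝ) =>
        (BB V Z p.1 i j * BB V Z p.1 j i - BB V Z p.1 i j * BB V Z p.2 j i)
          + (BB V Z p.2 i j * BB V Z p.2 j i - BB V Z p.2 i j * BB V Z p.1 j i)) (P.prod P) :=
      fun i j => ((i1 i j).sub (i2 i j)).add ((i3 i j).sub (i4 i j))
    simp_rw [e0]
    rw [integral_finsetSum _ fun i _ => integrable_finsetSum _ fun j _ => i5 i j]
    have e1 : ∫ y, Matrix.trace (BB V Z y * BB V Z y) ∂P
        = ∑ i, ∑ j, ∫ y, BB V Z y i j * BB V Z y j i ∂P := by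
      simp only [Matrix.trace, Matrix.diag_apply, Matrix.mul_apply]
      rw [integral_finsetSum _ fun i _ => integrable_finsetSum _ fun j _ => iBB i j j i]
      refine Finset.sum_congr rfl fun i _ => ?_
      rw [integral_finsetSum _ fun j _ => iBB i j j i]
    rw [e1, Finset.mul_sum]
    refine Finset.sum_congr rfl fun i _ => ?_
    rw [integral_finsetSum _ fun j _ => i5 i j, Finset.mul_sum]
    refine Finset.sum_congr rfl fun j _ => ?_
    have s1 : ∫ p, ((BB V Z p.1 i j * BB V Z p.1 j i - BB V Z p.1 i j * BB V Z p.2 j i)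
          + (BB V Z p.2 i j * BB V Z p.2 j i - BB V Z p.2 i j * BB V Z p.1 j i)) ∂(P.prod P)
        = (∫ p, BB V Z p.1 i j * BB V Z p.1 j i ∂(P.prod P)
            - ∫ p, BB V Z p.1 i j * BB V Z p.2 j i ∂(P.prod P))
          + (∫ p, BB V Z p.2 i j * BB V Z p.2 j i ∂(P.prod P)
            - ∫ p, BB V Z p.2 i j * BB V Z p.1 j i ∂(P.prod P)) := by
      have t1 : Integrable (fun p : (Fin n → ℝ) × (Fin n → ℝ) =>
        BB V Z p.1 i j * BB V Z p.1 j i - BB V Z p.1 i j * BB V Z p.2 j i) (P.prod P) :=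
        (i1 i j).sub (i2 i j)
      have t2 : Integrable (fun p : (Fin n → ℝ) × (Fin n → ℝ) =>
        BB V Z p.2 i j * BB V Z p.2 j i - BB V Z p.2 i j * BB V Z p.1 j i) (P.prod P) :=
        (i3 i j).sub (i4 i j)
      rw [integral_add t1 t2, integral_sub (i1 i j) (i2 i j), integral_sub (i3 i j) (i4 i j)]
    have s2 : ∫ p : (Fin n → ℝ) × (Fin n → ℝ), BB V Z p.1 i j * BB V Z p.2 j i ∂(P.prod P) = 0 := by
      rw [integral_prod_mul (fun y => BB V Z y i j) (fun y => BB V Z y j i), hB, zero_mul]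
    have s3 : ∫ p : (Fin n → ℝ) × (Fin n → ℝ), BB V Z p.2 i j * BB V Z p.1 j i ∂(P.prod P) = 0 := by
      have : ∫ p : (Fin n → ℝ) × (Fin n → ℝ), BB V Z p.2 i j * BB V Z p.1 j i ∂(P.prod P)
          = ∫ p : (Fin n → ℝ) × (Fin n → ℝ), BB V Z p.1 j i * BB V Z p.2 i j ∂(P.prod P) := by
        congr 1
        funext p
        ring
      rw [this, integral_prod_mul (fun y => BB V Z y j i) (fun y => BB V Z y i j), hB, zero_mul]
    have s4 : ∫ p : (Fin n → ℝ) × (Fin n → ℝ), BB V Z p.1 i j * BB V Z p.1 j i ∂(P.prod P)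
        = ∫ y, BB V Z y i j * BB V Z y j i ∂P := by
      have h := integral_prod_mul (μ := P) (ν := P) (fun y => BB V Z y i j * BB V Z y j i)
        (fun _ => (1 : ℝ))
      simpa using h
    have s5 : ∫ p : (Fin n → ℝ) × (Fin n → ℝ), BB V Z p.2 i j * BB V Z p.2 j i ∂(P.prod P)
        = ∫ y, BB V Z y i j * BB V Z y j i ∂P := by
      have h := integral_prod_mul (μ := P) (ν := P) (fun _ => (1 : ℝ))
        (fun y => BB V Z y i j * BB V Z y j i)
      simpa using h
    rw [s1, s2, s3, s4, s5]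
    ring
  -- the pair terms
  set A : Fin n → Fin n → ℝ := fun k l => ∫ y, y k * y l * AL V Z y k l ^ 2 ∂P with hA
  have hA0 : ∀ k l, 0 ≤ A k l := by
    intro k l
    refine integral_nonneg_of_ae ?_
    filter_upwards [hb] with y hy
    exact mul_nonneg (mul_nonneg (ha.le.trans (hy k).1) (ha.le.trans (hy l).1)) (sq_nonneg _)
  have iA : ∀ k l, Integrable (fun y => y k * y l * AL V Z y k l ^ 2) P := fun k l =>
    int_one ha hb (((cy k).mul (cy l)).mul ((cA k l).pow 2))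
  have hT : ∀ k l, ∫ p, (p.1 k - p.2 k) * (p.1 l - p.2 l) * (AL V Z p.2 k l * AL V Z p.1 l k)
      ∂(P.prod P) ≤ √J * ((A k l + A l k) / 2) := by
    intro k l
    by_cases hk : V k = 0
    · have h0 : ∀ y, AL V Z y l k = 0 := by
        intro y
        unfold AL
        rw [Matrix.mul_apply]
        refine Finset.sum_eq_zero fun a _ => ?_
        rw [Matrix.transpose_apply, hk]
        simp
      have : ∫ p : (Fin n → ℝ) × (Fin n → ℝ), (p.1 k - p.2 k) * (p.1 l - p.2 l)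
          * (AL V Z p.2 k l * AL V Z p.1 l k) ∂(P.prod P) = 0 := by
        simp [h0]
      rw [this]
      exact mul_nonneg (Real.sqrt_nonneg _) (div_nonneg (add_nonneg (hA0 _ _) (hA0 _ _)) (by norm_num))
    by_cases hl : V l = 0
    · have h0 : ∀ y, AL V Z y k l = 0 := by
        intro y
        unfold AL
        rw [Matrix.mul_apply]
        refine Finset.sum_eq_zero fun a _ => ?_
        rw [Matrix.transpose_apply, hl]
        simp
      have : ∫ p : (Fin n → ℝ) × (Fin n → ℝ), (p.1 k - p.2 k) * (p.1 l - p.2 l)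
          * (AL V Z p.2 k l * AL V Z p.1 l k) ∂(P.prod P) = 0 := by
        simp [h0]
      rw [this]
      exact mul_nonneg (Real.sqrt_nonneg _) (div_nonneg (add_nonneg (hA0 _ _) (hA0 _ _)) (by norm_num))
    -- the two factors
    set f : (Fin n → ℝ) × (Fin n → ℝ) → ℝ := fun p =>
      √(p.1 k * p.1 l * (p.2 k * p.2 l)) * (AL V Z p.2 k l * AL V Z p.1 l k) with hf
    set g : (Fin n → ℝ) × (Fin n → ℝ) → ℝ := fun p =>
      (p.1 k - p.2 k) * (p.1 l - p.2 l) / √(p.1 k * p.1 l * (p.2 k * p.2 l)) with hg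
    have pos : ∀ p : (Fin n → ℝ) × (Fin n → ℝ), p.1 ∈ Og n → p.2 ∈ Og n →
        0 < p.1 k * p.1 l * (p.2 k * p.2 l) := fun p h1 h2 =>
      mul_pos (mul_pos (h1 k) (h1 l)) (mul_pos (h2 k) (h2 l))
    have cs : ContinuousOn (fun p : (Fin n → ℝ) × (Fin n → ℝ) =>
        √(p.1 k * p.1 l * (p.2 k * p.2 l))) (Og n ×ˢ Og n) :=
      (((cf1 (cy k)).mul (cf1 (cy l))).mul ((cf2 (cy k)).mul (cf2 (cy l)))).sqrt
    have cf : ContinuousOn f (Og n ×ˢ Og n) := cs.mul ((cf2 (cA k l)).mul (cf1 (cA l k)))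
    have cg : ContinuousOn g (Og n ×ˢ Og n) := by
      refine ContinuousOn.div ((((cf1 (cy k)).sub (cf2 (cy k))).mul
        ((cf1 (cy l)).sub (cf2 (cy l))))) cs fun p hp => ?_
      exact (Real.sqrt_pos.2 (pos p hp.1 hp.2)).ne'
    have h1 := cs_int (P.prod P) f g (int_two ha hb (cf.pow 2)) (int_two ha hb (cg.pow 2))
      (int_two ha hb (cf.mul cg))
    have e1 : ∫ p, f p * g p ∂(P.prod P)
        = ∫ p, (p.1 k - p.2 k) * (p.1 l - p.2 l) * (AL V Z p.2 k l * AL V Z p.1 l k)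
          ∂(P.prod P) := by
      refine integral_congr_ae ?_
      filter_upwards [hO] with p hp
      have hs := (Real.sqrt_pos.2 (pos p hp.1 hp.2)).ne'
      simp only [hf, hg]
      generalize √(p.1 k * p.1 l * (p.2 k * p.2 l)) = S at hs ⊢
      field_simp
    have e2 : ∫ p, f p ^ 2 ∂(P.prod P) = A l k * A k l := by
      have : ∫ p, f p ^ 2 ∂(P.prod P)
          = ∫ p : (Fin n → ℝ) × (Fin n → ℝ), (p.1 l * p.1 k * AL V Z p.1 l k ^ 2)
            * (p.2 k * p.2 l * AL V Z p.2 k l ^ 2) ∂(P.prod P) := by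
        refine integral_congr_ae ?_
        filter_upwards [hO] with p hp
        simp only [hf]
        rw [mul_pow, Real.sq_sqrt (pos p hp.1 hp.2).le]
        ring
      rw [this, integral_prod_mul (fun y => y l * y k * AL V Z y l k ^ 2)
        (fun y => y k * y l * AL V Z y k l ^ 2)]
    have e3 : ∫ p, g p ^ 2 ∂(P.prod P) ≤ J := by
      have hi : ∀ j, V j ≠ 0 → Integrable (fun p : (Fin n → ℝ) × (Fin n → ℝ) =>
          (p.1 j / p.2 j + p.2 j / p.1 j - 2) ^ 2) (P.prod P) ∧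
          ∫ p : (Fin n → ℝ) × (Fin n → ℝ), (p.1 j / p.2 j + p.2 j / p.1 j - 2) ^ 2 ∂(P.prod P)
            ≤ J := by
        intro j hj
        have hint : Integrable (fun p : (Fin n → ℝ) × (Fin n → ℝ) =>
            (p.1 j / p.2 j + p.2 j / p.1 j - 2) ^ 2) (P.prod P) := by
          refine int_two ha hb (ContinuousOn.pow (((ContinuousOn.div (cf1 (cy j)) (cf2 (cy j))
            fun p hp => (hp.2 j).ne').add (ContinuousOn.div (cf2 (cy j)) (cf1 (cy j))
            fun p hp => (hp.1 j).ne')).sub continuousOn_const) 2)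
        refine ⟨hint, ?_⟩
        rw [integral_prod _ hint]
        exact hJi j hj
      obtain ⟨ik, jk⟩ := hi k hk
      obtain ⟨il, jl⟩ := hi l hl
      have hle : ∫ p, g p ^ 2 ∂(P.prod P) ≤ ∫ p : (Fin n → ℝ) × (Fin n → ℝ),
          (1 / 2 * (p.1 k / p.2 k + p.2 k / p.1 k - 2) ^ 2
            + 1 / 2 * (p.1 l / p.2 l + p.2 l / p.1 l - 2) ^ 2) ∂(P.prod P) := by
        refine integral_mono_ae (int_two ha hb (cg.pow 2))
          ((ik.const_mul _).add (il.const_mul _)) ?_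
        filter_upwards [hO] with p hp
        have a1 := hp.1 k
        have a2 := hp.1 l
        have a3 := hp.2 k
        have a4 := hp.2 l
        have q1 : g p ^ 2 = (p.1 k / p.2 k + p.2 k / p.1 k - 2)
            * (p.1 l / p.2 l + p.2 l / p.1 l - 2) := by
          simp only [hg]
          rw [div_pow, Real.sq_sqrt (pos p hp.1 hp.2).le]
          field_simp
          ring
        show g p ^ 2 ≤ _
        rw [q1]
        nlinarith [sq_nonneg ((p.1 k / p.2 k + p.2 k / p.1 k - 2)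
          - (p.1 l / p.2 l + p.2 l / p.1 l - 2))]
      rw [integral_add (ik.const_mul _) (il.const_mul _), integral_const_mul,
        integral_const_mul] at hle
      linarith
    rw [e1, e2] at h1
    have e4 : A l k * A k l * ∫ p, g p ^ 2 ∂(P.prod P) ≤ (√J * ((A k l + A l k) / 2)) ^ 2 := by
      rw [mul_pow, Real.sq_sqrt hJ]
      have hp0 : 0 ≤ A l k * A k l := mul_nonneg (hA0 _ _) (hA0 _ _)
      have hp1 : A l k * A k l ≤ ((A k l + A l k) / 2) ^ 2 := by
        nlinarith [sq_nonneg (A k l - A l k)]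
      calc A l k * A k l * ∫ p, g p ^ 2 ∂(P.prod P) ≤ A l k * A k l * J :=
            mul_le_mul_of_nonneg_left e3 hp0
        _ ≤ ((A k l + A l k) / 2) ^ 2 * J := mul_le_mul_of_nonneg_right hp1 hJ
        _ = J * ((A k l + A l k) / 2) ^ 2 := by ring
    have h5 := h1.trans e4
    exact le_of_abs_le (abs_le_of_sq_le_sq h5 (mul_nonneg (Real.sqrt_nonneg _)
      (div_nonneg (add_nonneg (hA0 _ _) (hA0 _ _)) (by norm_num))))
  -- summation
  have hR : ∫ p, Matrix.trace ((BB V Z p.1 - BB V Z p.2) * (BB V Z p.1 - BB V Z p.2)) ∂(P.prod P)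
      = ∑ k, ∑ l, ∫ p, (p.1 k - p.2 k) * (p.1 l - p.2 l) * (AL V Z p.2 k l * AL V Z p.1 l k)
        ∂(P.prod P) := by
    have i1 : ∀ k l, Integrable (fun p : (Fin n → ℝ) × (Fin n → ℝ) =>
        (p.1 k - p.2 k) * (p.1 l - p.2 l) * (AL V Z p.2 k l * AL V Z p.1 l k)) (P.prod P) :=
      fun k l => int_two ha hb ((((cf1 (cy k)).sub (cf2 (cy k))).mul
        ((cf1 (cy l)).sub (cf2 (cy l)))).mul ((cf2 (cA k l)).mul (cf1 (cA l k))))
    have e0 : ∫ p, Matrix.trace ((BB V Z p.1 - BB V Z p.2) * (BB V Z p.1 - BB V Z p.2))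
        ∂(P.prod P) = ∫ p, ∑ k, ∑ l, (p.1 k - p.2 k) * (p.1 l - p.2 l)
          * (AL V Z p.2 k l * AL V Z p.1 l k) ∂(P.prod P) := by
      refine integral_congr_ae ?_
      filter_upwards [hO] with p hp
      exact trace_sq V Z p.1 p.2 (hq _ hp.1) (hq _ hp.2)
    rw [e0, integral_finsetSum _ fun k _ => integrable_finsetSum _ fun l _ => i1 k l]
    refine Finset.sum_congr rfl fun k _ => ?_
    rw [integral_finsetSum _ fun l _ => i1 k l]
  have hS : ∫ y, sgm V Z y ∂P = ∑ k, ∑ l, A l k := by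
    have e0 : ∫ y, sgm V Z y ∂P = ∫ y, ∑ k, ∑ l, y l * y k * AL V Z y l k ^ 2 ∂P := by
      refine integral_congr_ae ?_
      filter_upwards [hb] with y hy
      have hy' : y ∈ Og n := fun i => lt_of_lt_of_le ha (hy i).1
      rw [← sum_AL V Z y (hq y hy')]
      refine Finset.sum_congr rfl fun k _ => Finset.sum_congr rfl fun l _ => ?_
      ring
    rw [e0, integral_finsetSum _ fun k _ => integrable_finsetSum _ fun l _ => iA l k]
    refine Finset.sum_congr rfl fun k _ => ?_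
    rw [integral_finsetSum _ fun l _ => iA l k]
  have hfin : ∑ k, ∑ l, √J * ((A k l + A l k) / 2) = √J * ∑ k, ∑ l, A l k := by
    have h1 : ∑ k, ∑ l, A k l = ∑ k, ∑ l, A l k := Finset.sum_comm
    have h2 : ∑ k, ∑ l, √J * ((A k l + A l k) / 2)
        = √J / 2 * (∑ k, ∑ l, A k l) + √J / 2 * ∑ k, ∑ l, A l k := by
      rw [Finset.mul_sum, Finset.mul_sum, ← Finset.sum_add_distrib]
      refine Finset.sum_congr rfl fun k _ => ?_
      rw [Finset.mul_sum, Finset.mul_sum, ← Finset.sum_add_distrib]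
      refine Finset.sum_congr rfl fun l _ => ?_
      ring
    rw [h2, h1]
    ring
  have hall : 2 * ∫ y, Matrix.trace (BB V Z y * BB V Z y) ∂P ≤ √J * ∫ y, sgm V Z y ∂P := by
    rw [← hL, hR, hS, ← hfin]
    exact Finset.sum_le_sum fun k _ => Finset.sum_le_sum fun l _ => hT k l
  linarith

end Pool.Agent.Helper43.GR
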