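import Pool.Agent.Helper44.GH.Stmts

/-! The two point bound: algebra. -/

open Finset MeasureTheory Filter Topology Matrix
open scoped ENNReal ContDiff

namespace Pool.Agent.Helper43.GR

open Pool.Agent.Helper44.GF Pool.Agent.Helper44.GN Pool.Agent.Helper44.GH

variable {n m : ℕ}

/-- The residual matrix. -/
noncomputable def RR (V Z : Matrix (Fin n) (Fin m) ℝ) (y : Fin n → ℝ) : Matrix (Fin n) (Fin m) ℝ :=
  Z - V * BB V Z y

/-- The matrix with the entries `ρ_l · H⁻¹ v_k`. -/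
noncomputable def AL (V Z : Matrix (Fin n) (Fin m) ℝ) (y : Fin n → ℝ) : Matrix (Fin n) (Fin n) ℝ :=
  RR V Z y * (TT V V y)⁻¹ * Vᵀ

theorem TT_sub (V W : Matrix (Fin n) (Fin m) ℝ) (y y' : Fin n → ℝ) :
    Vᵀ * Matrix.diagonal (y - y') * W = TT V W y - TT V W y' := by
  unfold TT
  have h : Matrix.diagonal (y - y') = Matrix.diagonal y - Matrix.diagonal y' :=
    (Matrix.diagonal_sub y y').symm
  rw [h, Matrix.mul_sub, Matrix.sub_mul]

theorem TT_RR (V Z : Matrix (Fin n) (Fin m) ℝ) (y y' : Fin n → ℝ) :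
    TT V (RR V Z y') y = TT V Z y - TT V V y * BB V Z y' := by
  unfold RR TT
  rw [Matrix.mul_sub, Matrix.mul_assoc, Matrix.mul_assoc, Matrix.mul_assoc, Matrix.mul_assoc]

theorem TT_BB (V Z : Matrix (Fin n) (Fin m) ℝ) (y : Fin n → ℝ) (h : 0 < qf V y) :
    TT V V y * BB V Z y = TT V Z y := by
  have hu : IsUnit (TT V V y).det := isUnit_iff_ne_zero.2 (ne_of_gt h)
  unfold BB
  rw [← Matrix.mul_assoc, Matrix.mul_nonsing_inv _ hu, Matrix.one_mul]

theorem BB_sub (V Z : Matrix (Fin n) (Fin m) ℝ) (y y' : Fin n → ℝ) (h : 0 < qf V y)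
    (h' : 0 < qf V y') :
    BB V Z y - BB V Z y' = (TT V V y)⁻¹ * (Vᵀ * Matrix.diagonal (y - y') * RR V Z y') := by
  have hu : IsUnit (TT V V y).det := isUnit_iff_ne_zero.2 (ne_of_gt h)
  rw [TT_sub, TT_RR, TT_RR, TT_BB V Z y' h', sub_self, sub_zero, Matrix.mul_sub,
    ← Matrix.mul_assoc, Matrix.nonsing_inv_mul _ hu, Matrix.one_mul]
  rfl

theorem BB_sub2 (V Z : Matrix (Fin n) (Fin m) ℝ) (y y' : Fin n → ℝ) (h : 0 < qf V y)
    (h' : 0 < qf V y') :
    BB V Z y - BB V Z y' = (TT V V y')⁻¹ * (Vᵀ * Matrix.diagonal (y - y') * RR V Z y) := by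
  have h1 := BB_sub V Z y' y h' h
  have h2 : Matrix.diagonal (y' - y) = -Matrix.diagonal (y - y') := by
    have h3 := Matrix.diagonal_neg (y - y')
    rw [h3]
    congr 1
    funext i
    simp
  rw [h2, Matrix.mul_neg, Matrix.neg_mul, Matrix.mul_neg] at h1
  rw [← neg_sub, h1, neg_neg]

theorem trace_sq (V Z : Matrix (Fin n) (Fin m) ℝ) (y y' : Fin n → ℝ) (h : 0 < qf V y)
    (h' : 0 < qf V y') :
    Matrix.trace ((BB V Z y - BB V Z y') * (BB V Z y - BB V Z y'))
      = ∑ k, ∑ l, (y k - y' k) * (y l - y' l) * (AL V Z y' k l * AL V Z y l k) := by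
  have e1 : (BB V Z y - BB V Z y') * (BB V Z y - BB V Z y')
      = ((TT V V y)⁻¹ * Vᵀ) * (Matrix.diagonal (y - y') * RR V Z y' * (TT V V y')⁻¹ * Vᵀ
          * Matrix.diagonal (y - y') * RR V Z y) := by
    nth_rewrite 1 [BB_sub V Z y y' h h']
    rw [BB_sub2 V Z y y' h h']
    simp only [Matrix.mul_assoc]
  rw [e1, Matrix.trace_mul_comm]
  have e2 : Matrix.diagonal (y - y') * RR V Z y' * (TT V V y')⁻¹ * Vᵀ
          * Matrix.diagonal (y - y') * RR V Z y * ((TT V V y)⁻¹ * Vᵀ)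
      = (Matrix.diagonal (y - y') * AL V Z y') * (Matrix.diagonal (y - y') * AL V Z y) := by
    unfold AL
    simp only [Matrix.mul_assoc]
  rw [e2]
  simp only [Matrix.trace, Matrix.diag_apply, Matrix.mul_apply (M := Matrix.diagonal (y - y') * AL V Z y'),
    Matrix.diagonal_mul, Pi.sub_apply]
  refine Finset.sum_congr rfl fun k _ => Finset.sum_congr rfl fun l _ => ?_
  ring

theorem TT_symm (V : Matrix (Fin n) (Fin m) ℝ) (y : Fin n → ℝ) : (TT V V y)ᵀ = TT V V y := by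
  unfold TT
  rw [Matrix.transpose_mul, Matrix.transpose_mul, Matrix.transpose_transpose,
    Matrix.diagonal_transpose, Matrix.mul_assoc]

theorem RR_TT (V Z : Matrix (Fin n) (Fin m) ℝ) (y : Fin n → ℝ) (h : 0 < qf V y) :
    TT (RR V Z y) (RR V Z y) y = TT Z Z y - (BB V Z y)ᵀ * TT V V y * BB V Z y := by
  have h0 : TT V (RR V Z y) y = 0 := by rw [TT_RR, TT_BB V Z y h, sub_self]
  have h1 : TT (RR V Z y) (RR V Z y) y = TT Z (RR V Z y) y := by
    have : TT (RR V Z y) (RR V Z y) y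
        = TT Z (RR V Z y) y - (BB V Z y)ᵀ * TT V (RR V Z y) y := by
      conv_lhs => rw [show TT (RR V Z y) (RR V Z y) y
        = (RR V Z y)ᵀ * Matrix.diagonal y * RR V Z y from rfl]
      nth_rewrite 1 [RR]
      rw [Matrix.transpose_sub, Matrix.transpose_mul, Matrix.sub_mul, Matrix.sub_mul]
      unfold TT
      simp only [Matrix.mul_assoc]
    rw [this, h0, Matrix.mul_zero, sub_zero]
  rw [h1]
  have h2 : TT Z (RR V Z y) y = TT Z Z y - TT Z V y * BB V Z y := by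
    unfold RR TT
    rw [Matrix.mul_sub, Matrix.mul_assoc, Matrix.mul_assoc, Matrix.mul_assoc, Matrix.mul_assoc]
  have h3 : TT Z V y = (BB V Z y)ᵀ * TT V V y := by
    have h4 : (TT V Z y)ᵀ = TT Z V y := by
      unfold TT
      rw [Matrix.transpose_mul, Matrix.transpose_mul, Matrix.transpose_transpose,
        Matrix.diagonal_transpose, Matrix.mul_assoc]
    rw [← h4, ← TT_BB V Z y h, Matrix.transpose_mul, TT_symm]
  rw [h2, h3]

theorem sum_AL (V Z : Matrix (Fin n) (Fin m) ℝ) (y : Fin n → ℝ) (h : 0 < qf V y) :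
    ∑ k, ∑ l, y k * y l * AL V Z y l k ^ 2 = sgm V Z y := by
  have hu : IsUnit (TT V V y).det := isUnit_iff_ne_zero.2 (ne_of_gt h)
  have e1 : ∑ k, ∑ l, y k * y l * AL V Z y l k ^ 2
      = Matrix.trace (Matrix.diagonal y * (AL V Z y)ᵀ * (Matrix.diagonal y * AL V Z y)) := by
    simp only [Matrix.trace, Matrix.diag_apply,
      Matrix.mul_apply (M := Matrix.diagonal y * (AL V Z y)ᵀ), Matrix.diagonal_mul,
      Matrix.transpose_apply]
    refine Finset.sum_congr rfl fun k _ => Finset.sum_congr rfl fun l _ => ?_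
    ring
  have e2 : (AL V Z y)ᵀ = V * ((TT V V y)⁻¹ * (RR V Z y)ᵀ) := by
    unfold AL
    rw [Matrix.transpose_mul, Matrix.transpose_mul, Matrix.transpose_transpose,
      Matrix.transpose_nonsing_inv, TT_symm]
  have e3 : Matrix.diagonal y * (AL V Z y)ᵀ * (Matrix.diagonal y * AL V Z y)
      = (Matrix.diagonal y * V * (TT V V y)⁻¹) *
        (TT (RR V Z y) (RR V Z y) y * (TT V V y)⁻¹ * Vᵀ) := by
    rw [e2]
    unfold AL
    rw [show TT (RR V Z y) (RR V Z y) y
        = (RR V Z y)ᵀ * Matrix.diagonal y * RR V Z y from rfl]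
    simp only [Matrix.mul_assoc]
  have e4 : (TT (RR V Z y) (RR V Z y) y * (TT V V y)⁻¹ * Vᵀ)
      * (Matrix.diagonal y * V * (TT V V y)⁻¹)
      = TT (RR V Z y) (RR V Z y) y * ((TT V V y)⁻¹ * (TT V V y * (TT V V y)⁻¹)) := by
    rw [show TT V V y = Vᵀ * Matrix.diagonal y * V from rfl]
    simp only [Matrix.mul_assoc]
  rw [e1, e3, Matrix.trace_mul_comm, e4, Matrix.mul_nonsing_inv _ hu, Matrix.mul_one,
    Matrix.trace_mul_comm, RR_TT V Z y h]
  rfl

end Pool.Agent.Helper43.GR
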